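import Pool.Agent.U707.LI.All

/-!
# Two-dimensional representations with traces from arbitrary modular forms

`V` is a two-dimensional continuous representation of the Galois group of `ℚ` over `ℚ̄_p`,
irreducible on every open subgroup (the others are dihedral or of finite projective image). No
condition on ramification or at `p` is assumed. `V_i` are the representations of finitely many
cuspidal eigenforms `f_i`, of any weights, levels and characters (or of Eisenstein series), `ψ_i`
continuous characters of the Galois group of `ℚ`, and `c_i` coefficients in `ℚ̄_p`. If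
`tr V(Frob_ℓ) = ∑ c_i ψ_i(Frob_ℓ) a_ℓ(f_i)` for the primes `ℓ` of a set of positive upper
density, then `V` is isomorphic to `V_i ⊗ χ` for some `i` with `c_i ≠ 0`, where `χ` is the product of
`ψ_i` and a character of finite order. So `V` comes from an eigenform, up to a twist, as soon as
its traces at a positive proportion of the primes are the coefficients of any form,
not necessarily an eigenform, of mixed weight, a derivative, or a quasimodular form.

Parts of the proof are by helper140, helper784, helper187, helper612, helper94 (see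
`Pool.Agent.U707.LI.All`).
-/

set_option autoImplicit false

namespace Pool.Agent.Results.MP_b583a4_nt.AnyModularForm

open NumberField IsDedekindDomain Module Pool.Agent.W401.Cheb Pool.Agent.U707 Pool.Agent.U707.LI

/-- the twist of the representation by a continuous character -/
noncomputable def twisted {p : ℕ} [Fact p.Prime] (W : LI.Rep ℚ (PadicAlgCl p)) (ψ : GK ℚ →* (PadicAlgCl p)ˣ)
    (hψ : Continuous fun g => (ψ g : PadicAlgCl p)) : LI.Rep ℚ (PadicAlgCl p) where
  V := W.V
  ρ :=
    { toFun := fun g => (ψ g : PadicAlgCl p) • W.ρ g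
      map_one' := by rw [map_one, map_one, Units.val_one, one_smul]
      map_mul' := fun g h => by
        rw [map_mul, map_mul, Units.val_mul, smul_mul_smul_comm] }
  cont x f := by
    have h1 : ∀ g, f (((ψ g : PadicAlgCl p) • W.ρ g) x) = (ψ g : PadicAlgCl p) * f (W.ρ g x) := by
      intro g
      rw [LinearMap.smul_apply, map_smul, smul_eq_mul]
    change Continuous fun g => f (((ψ g : PadicAlgCl p) • W.ρ g) x)
    simp only [h1]
    exact hψ.mul (W.cont x f)

/-- **Two-dimensional representations with traces from arbitrary modular forms.** -/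
theorem result {p : ℕ} [Fact p.Prime] (V : LI.Rep ℚ (PadicAlgCl p))
    (hV2 : finrank (PadicAlgCl p) V.V = 2) (hV : V.StronglyIrreducible)
    {ι : Type} [Fintype ι] (W : ι → LI.Rep ℚ (PadicAlgCl p))
    (hW2 : ∀ i, finrank (PadicAlgCl p) (W i).V = 2)
    (a : ι → HeightOneSpectrum (𝓞 ℚ) → PadicAlgCl p)
    (ha : ∃ B : Set (HeightOneSpectrum (𝓞 ℚ)), B.Finite ∧ ∀ v ∉ B, ∀ φ, GeoFrob v φ → ∀ i,
      (W i).tr φ = a i v)
    (ψ : ι → GK ℚ →* (PadicAlgCl p)ˣ) (hψ : ∀ i, Continuous fun g => (ψ i g : PadicAlgCl p))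
    (c : ι → PadicAlgCl p) {P : Set (HeightOneSpectrum (𝓞 ℚ))} (hP : PosDensity P)
    (h : ∀ v ∈ P, ∀ φ, GeoFrob v φ → V.tr φ = ∑ i, c i * ψ i φ * a i v) :
    ∃ i, c i ≠ 0 ∧ ∃ χ : GK ℚ →* (PadicAlgCl p)ˣ, IsOpen (χ.ker : Set (GK ℚ)) ∧
      ∃ e : (W i).V ≃ₗ[PadicAlgCl p] V.V, ∀ g x,
        V.ρ g (e x) = (χ g * ψ i g : PadicAlgCl p) • e ((W i).ρ g x) := by
  obtain ⟨B, hB, ha⟩ := ha
  have hP' : PosDensity (P \ B) := hP.mono hB fun v hv hvB => ⟨hv, hvB⟩
  have hnt := V.nontriv hV
  have htw : ∀ i g, (twisted (W i) (ψ i) (hψ i)).tr g = ψ i g * (W i).tr g := by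
    intro i g
    have h1 : (twisted (W i) (ψ i) (hψ i)).ρ g = (ψ i g : PadicAlgCl p) • (W i).ρ g := rfl
    unfold LI.Rep.tr
    rw [h1]
    exact LinearMap.map_smul (LinearMap.trace (PadicAlgCl p) (W i).V) _ _
  obtain ⟨i, hi, U, hUn, hUo, hs⟩ := indep sHAAR sCHEB sTRANS sIND V (fun U hU => V.full hV U hU)
    (fun i => twisted (W i) (ψ i) (hψ i)) c hP' (by
      rintro v ⟨hv, hvB⟩ φ hφ
      rw [h v hv φ hφ]
      refine Finset.sum_congr rfl fun i _ => ?_
      rw [htw, ha v hvB φ hφ i, mul_assoc])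
  have := hUn
  obtain ⟨χ, e, hχ, he⟩ := sTW (GK ℚ) (PadicAlgCl p) U V.V (twisted (W i) (ψ i) (hψ i)).V V.ρ
    (twisted (W i) (ψ i) (hψ i)).ρ (V.full hV U hUo) hs ((hW2 i).trans hV2.symm)
  refine ⟨i, hi, χ⁻¹, ?_, e, fun g x => ?_⟩
  · have hker : ((χ⁻¹ : GK ℚ →* (PadicAlgCl p)ˣ).ker : Set (GK ℚ)) = (χ.ker : Set (GK ℚ)) := by
      ext g
      simp only [SetLike.mem_coe, MonoidHom.mem_ker, MonoidHom.inv_apply, inv_eq_one]
    rw [hker]
    exact Subgroup.isOpen_mono (fun h hh => hχ h hh) hUo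
  · have h1 := he g x
    have h2 : (twisted (W i) (ψ i) (hψ i)).ρ g x = (ψ i g : PadicAlgCl p) • (W i).ρ g x := rfl
    rw [h2] at h1
    have h3 : e ((ψ i g : PadicAlgCl p) • (W i).ρ g x) =
        (ψ i g : PadicAlgCl p) • e ((W i).ρ g x) := map_smul e _ _
    rw [h3] at h1
    have h5 := congrArg (fun y => (((χ g)⁻¹ : (PadicAlgCl p)ˣ) : PadicAlgCl p) • y) h1
    simp only [smul_smul, Units.inv_mul, one_smul] at h5
    exact h5.symm

end Pool.Agent.Results.MP_b583a4_nt.AnyModularForm
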