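import Pool.Agent.Results.MP_f68ac8_nt.EigenspaceIrreducibility

/-!
# The two-dimensional Fontaine–Mazur conjecture over `ℚ` for odd primes `p`, residually reducible
# representations and potentially reducible restriction to one inertia group at `p`

Let `p` be an odd prime, `ω` the cyclotomic character modulo `p`, and let `V` be a continuous
two-dimensional representation of `G_ℚ` over the ring of integers of a finite extension of `ℚ_p` (or any
Noetherian local ring of residue characteristic `p`), absolutely irreducible in characteristic zero,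
with residual characters `ω ^ i` and `ω ^ j`. Let `V` be unramified outside a set `S` of primes such that
`l ^ e ≠ l` modulo `p` for all `l ≠ p` in `S` and `e = 0, i - j, j - i`, and suppose that the eigenspaces of
the class group of `ℚ(ζ_p)` modulo `p` for `ω ^ (i - j)` and `ω ^ (j - i)` are zero.

**Theorem.** If the restriction of `V` to the inertia group at one prime above `p` is potentially
reducible (for example, if `V` is potentially ordinary), then `ω ^ (i - j)` has order two, and `V` is
induced from a character of the absolute Galois group of the field of `ω ^ (i - j)`, the quadratic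
subfield `ℚ(√p*)` of `ℚ(ζ_p)`.

So there are no irreducible `V` of this kind which are potentially ordinary at `p`, odd or even, if
`2 (i - j)` is not divisible by `p - 1`. If `p` is `3` modulo `4`, `V` is induced from a character of
an imaginary quadratic field, and so modular by the theorem of Hecke if it is geometric; if `p` is
`1` modulo `4`, the field is real, and a geometric `V` with distinct Hodge–Tate weights does not exist
(the Hodge–Tate weights of the characters of the absolute Galois group of a real quadratic field are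
parallel). So the conjecture of Fontaine and Mazur is true for the `V` of this kind which are
potentially reducible on inertia at `p`. (The last deductions are not part of the formal proof.)

The general theorem is over any number field `F`, with an abelian extension `k / F` of exponent
dividing `p - 1` and residual characters of `Gal(k/F)`.
-/

set_option autoImplicit false
set_option linter.unusedSectionVars false

namespace Pool.Agent.Results.MP_b583a4_nt.PotentiallyReducibleAtOddPrimes

open IsLocalRing Matrix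
open Pool.Agent.Results.MP_f68ac8_nt.EigenspaceIrreducibility

section defs

variable {B : Subgroup AbsGal} {A : Type} [CommRing A] {E : Type} [Field E] [Algebra A E]

/-- `σ` acts by a diagonal matrix in the basis `v`, `w` -/
def Diagonal (ρ : B →* GL (Fin 2) A) (v w : Fin 2 → E) (σ : B) : Prop :=
  (∃ a : E, act ρ σ v = a • v) ∧ ∃ b : E, act ρ σ w = b • w

/-- `σ` exchanges the lines of `v` and `w` -/
def Antidiagonal (ρ : B →* GL (Fin 2) A) (v w : Fin 2 → E) (σ : B) : Prop :=
  (∃ a : E, act ρ σ v = a • w) ∧ ∃ b : E, act ρ σ w = b • v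

variable (E)

/-- The character `θ` of `B` has order two, and `V = E ^ 2` is induced from a character of its kernel:
in a basis of `V` the kernel of `θ` acts by diagonal matrices, and the other elements of `B` by
antidiagonal matrices. -/
structure Dihedral {p : ℕ} (θ : Character p B) (ρ : B →* GL (Fin 2) A) : Prop where
  nontrivial : θ ≠ 1
  quadratic : ∀ σ : B, θ σ = 1 ∨ θ σ = -1
  induced : ∃ v w : Fin 2 → E, LinearIndependent E ![v, w] ∧ ∀ σ : B,
    (θ σ = 1 → Diagonal ρ v w σ) ∧ (θ σ ≠ 1 → Antidiagonal ρ v w σ)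

/-- `V` is induced from a character of the absolute Galois group of the quadratic subfield of `ℚ(ζ_p)`:
in a basis of `V` the elements `σ` for which `ω(σ)` is a square (the elements which fix the quadratic
subfield) act by diagonal matrices, and the other elements by antidiagonal matrices. -/
def InducedFromQuadratic {p : ℕ} (ω : Character p ⊤)
    (ρ : (⊤ : Subgroup AbsGal) →* GL (Fin 2) A) : Prop :=
  ∃ v w : Fin 2 → E, LinearIndependent E ![v, w] ∧ ∀ σ,
    (IsSquare (ω σ) → Diagonal ρ v w σ) ∧ (¬ IsSquare (ω σ) → Antidiagonal ρ v w σ)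

/-- the restriction of `V` to `T` is reducible -/
def ReducibleOn (ρ : B →* GL (Fin 2) A) (T : Subgroup AbsGal) : Prop :=
  ∃ U : Submodule E (Fin 2 → E), U ≠ ⊥ ∧ U ≠ ⊤ ∧ Stable ρ T U

end defs

/-! ## Linear algebra -/

section lin

variable {B : Subgroup AbsGal} {A : Type} [CommRing A] {E : Type} [Field E] [Algebra A E]

theorem act_mul (ρ : B →* GL (Fin 2) A) (σ τ : B) (v : Fin 2 → E) :
    act ρ (σ * τ) v = act ρ σ (act ρ τ v) := by
  unfold act
  rw [mulVec_mulVec, ← Matrix.map_mul, map_mul, Units.val_mul]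

theorem act_smul (ρ : B →* GL (Fin 2) A) (σ : B) (a : E) (v : Fin 2 → E) :
    act ρ σ (a • v) = a • act ρ σ v := by
  unfold act
  rw [mulVec_smul]

theorem act_one (ρ : B →* GL (Fin 2) A) (v : Fin 2 → E) : act ρ 1 v = v := by
  unfold act
  rw [map_one, Units.val_one, Matrix.map_one _ (map_zero _) (map_one _), one_mulVec]

/-- exchanging two independent lines makes the trace zero -/
theorem trace_zero {M : Matrix (Fin 2) (Fin 2) E} {v w : Fin 2 → E}
    (hvw : LinearIndependent E ![v, w]) {a b : E} (h1 : M *ᵥ v = a • w) (h2 : M *ᵥ w = b • v) :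
    M.trace = 0 := by
  have hD : v 0 * w 1 - v 1 * w 0 ≠ 0 := by
    intro h
    rw [LinearIndependent.pair_iff] at hvw
    have e1 := hvw (w 1) (-(v 1)) (by
      ext k
      fin_cases k
      · simp
        linear_combination h
      · simp
        ring)
    have e2 := hvw (w 0) (-(v 0)) (by
      ext k
      fin_cases k
      · simp
        ring
      · simp
        linear_combination -h)
    have e3 := hvw 0 1 (by
      ext k
      fin_cases k
      · simp [e2.1]
      · simp [e1.1])
    exact one_ne_zero e3.2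
  have q1 := congrFun h1 0
  have q2 := congrFun h1 1
  have q3 := congrFun h2 0
  have q4 := congrFun h2 1
  simp only [mulVec, dotProduct, Fin.sum_univ_two, Pi.smul_apply, smul_eq_mul] at q1 q2 q3 q4
  rw [trace_fin_two]
  have h3 : (M 0 0 + M 1 1) * (v 0 * w 1 - v 1 * w 0) = 0 := by
    linear_combination w 1 * q1 - v 1 * q3 + v 0 * q4 - w 0 * q2
  exact (mul_eq_zero.1 h3).resolve_right hD

end lin

/-- a natural number in the maximal ideal is divisible by `p` -/
theorem dvd_of_mem {A : Type} [CommRing A] [IsLocalRing A] {p : ℕ} (hp : p.Prime)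
    (hpA : (p : A) ∈ maximalIdeal A) {m : ℕ} (hm : (m : A) ∈ maximalIdeal A) : p ∣ m := by
  by_contra h
  have h1 : IsCoprime (p : ℤ) (m : ℤ) :=
    Nat.isCoprime_iff_coprime.2 ((Nat.Prime.coprime_iff_not_dvd hp).2 h)
  obtain ⟨a, b, hab⟩ := h1
  have h2 : (a : A) * (p : A) + (b : A) * (m : A) = 1 := by
    have := congrArg (Int.cast : ℤ → A) hab
    push_cast at this
    exact this
  have h3 : (1 : A) ∈ maximalIdeal A := by
    rw [← h2]
    exact Ideal.add_mem _ (Ideal.mul_mem_left _ _ hpA) (Ideal.mul_mem_left _ _ hm)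
  exact (Ideal.ne_top_iff_one _).1 (IsLocalRing.maximalIdeal.isMaximal A).ne_top h3

section main

variable {p : ℕ} [hp : Fact p.Prime] {S : Set ℕ} {B C : Subgroup AbsGal}

/-- **the dichotomy** -/
theorem dichotomy (hp2 : p ≠ 2) (hSet : Setting p B C) (A : Type) [CommRing A] [IsLocalRing A]
    [IsNoetherianRing A] [TopologicalSpace A] (hA : IsAdic (maximalIdeal A))
    (hpA : (p : A) ∈ maximalIdeal A) (ψ : Fin 2 → Character p B) (ρ : B →* GL (Fin 2) A)
    (hρ : Admissible S C ψ ρ) (E : Type) [Field E] [Algebra A E] [IsAlgClosed E] [CharZero E]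
    (hirr : Irreducible E ρ) (X : Subgroup AbsGal) (hX : Detecting p S B C ψ X)
    (T : Subgroup AbsGal) (hT : FinIndex T (X ⊓ B)) (hred : ReducibleOn E ρ T) :
    Dihedral E (ratio ψ 0 1) ρ := by
  obtain ⟨U, hU0, hU1, hUT⟩ := hred
  obtain ⟨L, W, hW0, hind, -, hall⟩ :=
    ((Pool.Agent.Results.MP_f68ac8_nt.EigenspaceIrreducibility.result.1 p S B C hSet A hA hpA 2 ψ ρ
      hρ).2 E).2.2 hirr
  have hWU := (hall X hX).2 U hU0 T hT hUT
  have hU2 : Module.finrank E U < 2 := by
    have h1 := Submodule.finrank_lt hU1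
    rwa [Module.finrank_fin_fun] at h1
  have hW1 : Module.finrank E W = 1 := by
    have h1 : Module.finrank E W ≠ 0 := fun h => hW0 (Submodule.finrank_eq_zero.1 h)
    omega
  have hidx : (L.subgroupOf B).index = 2 := by
    have h1 := hind.dim
    rw [hW1, mul_one] at h1
    exact h1
  set N : Subgroup B := L.subgroupOf B with hN
  have hNst : ∀ σ ∈ N, ∀ x ∈ W, act ρ σ x ∈ W := fun σ hσ x hx => hind.stable σ hσ x hx
  obtain ⟨v0, hv0, hspan⟩ := finrank_eq_one_iff'.1 hW1
  set v : Fin 2 → E := (v0 : Fin 2 → E) with hv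
  have hvW : v ∈ W := v0.2
  have hvne : v ≠ 0 := fun h => hv0 (Subtype.ext h)
  have hline : ∀ x ∈ W, ∃ a : E, x = a • v := by
    intro x hx
    obtain ⟨a, ha⟩ := hspan ⟨x, hx⟩
    exact ⟨a, (congrArg Subtype.val ha).symm⟩
  have hmul : ∀ a b : B, a * b ∈ N ↔ (a ∈ N ↔ b ∈ N) := fun a b =>
    Subgroup.mul_mem_iff_of_index_two hidx
  obtain ⟨g, hg⟩ : ∃ g : B, g ∉ N := by
    by_contra h
    push Not at h
    have h1 : N = ⊤ := (Subgroup.eq_top_iff' N).2 h
    rw [h1, Subgroup.index_top] at hidx
    omega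
  set w : Fin 2 → E := act ρ g v with hw
  have hNv : ∀ σ ∈ N, ∃ a : E, act ρ σ v = a • v := fun σ hσ => hline _ (hNst σ hσ v hvW)
  have hgv : ∀ σ, σ ∉ N → ∃ a : E, act ρ σ v = a • w := by
    intro σ hσ
    have h1 : g⁻¹ * σ ∈ N := by
      rw [hmul, inv_mem_iff]
      exact ⟨fun h => absurd h hg, fun h => absurd h hσ⟩
    obtain ⟨a, ha⟩ := hNv _ h1
    refine ⟨a, ?_⟩
    have h2 : σ = g * (g⁻¹ * σ) := by group
    rw [h2, act_mul, ha, act_smul]
  have hli : LinearIndependent E ![v, w] := by
    rw [LinearIndependent.pair_iff' hvne]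
    intro a ha
    have hst : Stable ρ B W := by
      intro σ _ x hx
      obtain ⟨b, rfl⟩ := hline x hx
      by_cases hσ : σ ∈ N
      · exact hNst σ hσ _ hx
      · obtain ⟨c, hc⟩ := hgv σ hσ
        rw [act_smul, hc, ← ha]
        exact W.smul_mem _ (W.smul_mem _ (W.smul_mem _ hvW))
    rcases hirr.2 W hst with h | h
    · exact hW0 h
    · rw [h, finrank_top, Module.finrank_fin_fun] at hW1
      omega
  have hdiag : ∀ σ ∈ N, Diagonal ρ v w σ := by
    intro σ hσ
    refine ⟨hNv σ hσ, ?_⟩
    have h1 : g⁻¹ * (σ * g) ∈ N := by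
      rw [hmul, hmul, inv_mem_iff]
      exact ⟨fun h => absurd h hg, fun h => h.1 hσ⟩
    obtain ⟨a, ha⟩ := hNv _ h1
    refine ⟨a, ?_⟩
    have h2 : σ * g = g * (g⁻¹ * (σ * g)) := by group
    rw [hw, ← act_mul, h2, act_mul, ha, act_smul]
  have hanti : ∀ σ, σ ∉ N → Antidiagonal ρ v w σ := by
    intro σ hσ
    refine ⟨hgv σ hσ, ?_⟩
    have h1 : σ * g ∈ N := by
      rw [hmul]
      exact ⟨fun h => absurd h hσ, fun h => absurd h hg⟩
    obtain ⟨a, ha⟩ := hNv _ h1
    exact ⟨a, by rw [hw, ← act_mul, ha]⟩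
  -- the residual characters
  obtain ⟨M, hM⟩ := hρ.triangular
  have hneg : ∀ σ, σ ∉ N → ratio ψ 0 1 σ = -1 := by
    intro σ hσ
    obtain ⟨⟨a, ha⟩, b, hb⟩ := hanti σ hσ
    have h1 : algebraMap A E ((ρ σ : Matrix (Fin 2) (Fin 2) A).trace) = 0 := by
      have h2 := trace_zero hli ha hb
      rw [trace_fin_two] at h2 ⊢
      rw [map_add]
      exact h2
    have h2 : (ρ σ : Matrix (Fin 2) (Fin 2) A).trace ∈ maximalIdeal A := by
      rw [mem_maximalIdeal]
      intro hu
      exact (hu.map (algebraMap A E)).ne_zero h1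
    have h3 : (basis M (ρ σ)).trace = (ρ σ : Matrix (Fin 2) (Fin 2) A).trace := by
      unfold basis
      rw [Units.val_mul, Units.val_mul, trace_mul_cycle, ← Units.val_mul, inv_mul_cancel,
        Units.val_one, one_mul]
    have h4 : (((value (ψ 0) σ + value (ψ 1) σ : ℕ) : A)) ∈ maximalIdeal A := by
      have e1 := (hM σ).2 0
      have e2 := (hM σ).2 1
      have e3 : (((value (ψ 0) σ + value (ψ 1) σ : ℕ) : A)) =
          (basis M (ρ σ)).trace - (basis M (ρ σ) 0 0 - (value (ψ 0) σ : A)) -
            (basis M (ρ σ) 1 1 - (value (ψ 1) σ : A)) := by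
        rw [trace_fin_two]
        push_cast
        ring
      rw [e3, h3]
      exact Ideal.sub_mem _ (Ideal.sub_mem _ h2 e1) e2
    have h5 := dvd_of_mem hp.out hpA h4
    have h6 : ((ψ 0 σ : (ZMod p)ˣ) : ZMod p) + ((ψ 1 σ : (ZMod p)ˣ) : ZMod p) = 0 := by
      have h7 := (ZMod.natCast_eq_zero_iff _ p).2 h5
      push_cast at h7
      unfold value at h7
      rwa [ZMod.natCast_zmod_val, ZMod.natCast_zmod_val] at h7
    have h8 : ψ 0 σ = - ψ 1 σ := by
      apply Units.ext
      rw [Units.val_neg]
      exact eq_neg_of_add_eq_zero_left h6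
    show ψ 0 σ * (ψ 1 σ)⁻¹ = -1
    rw [h8, neg_mul, mul_inv_cancel]
  have hone : ∀ σ ∈ N, ratio ψ 0 1 σ = 1 := by
    intro σ hσ
    have h1 : g * σ ∉ N := by
      rw [hmul]
      exact fun h => hg (h.2 hσ)
    have h2 := hneg _ h1
    rw [map_mul, hneg g hg] at h2
    exact mul_left_cancel (h2.trans (mul_one _).symm)
  have hne1 : (-1 : (ZMod p)ˣ) ≠ 1 := by
    intro h
    have h1 := congrArg (Units.val : (ZMod p)ˣ → ZMod p) h
    rw [Units.val_neg, Units.val_one] at h1
    have h2 : Fact (2 < p) := ⟨lt_of_le_of_ne hp.out.two_le (Ne.symm hp2)⟩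
    exact ZMod.neg_one_ne_one h1
  refine ⟨fun h => ?_, fun σ => ?_, v, w, hli, fun σ => ⟨fun h => ?_, fun h => ?_⟩⟩
  · have h1 := hneg g hg
    rw [h, MonoidHom.one_apply] at h1
    exact hne1 h1.symm
  · by_cases hσ : σ ∈ N
    · exact Or.inl (hone σ hσ)
    · exact Or.inr (hneg σ hσ)
  · refine hdiag σ ?_
    by_contra hσ
    exact hne1 ((hneg σ hσ).symm.trans h)
  · exact hanti σ fun hσ => h (hone σ hσ)

end main

section field

variable {p : ℕ} [hp : Fact p.Prime]

/-- the cyclotomic character modulo `p` is surjective -/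
theorem cyc_surj {ω : Character p ⊤} (hω : IsCyclotomic p ω) (u : (ZMod p)ˣ) :
    ∃ σ : (⊤ : Subgroup AbsGal), ω σ = u := by
  obtain ⟨l, hlp, hl, hlu⟩ := Nat.forall_exists_prime_gt_and_eq_mod u.isUnit p
  obtain ⟨⟨Q, hQ, hlQ, σ, hσ⟩, -⟩ := Pool.Agent.W571.FM.main l hl
  refine ⟨⟨σ, trivial⟩, Units.ext ?_⟩
  rw [cyc_frob hp.out hω hl (by omega) hQ hlQ (σ := ⟨σ, trivial⟩) hσ, hlu]

/-- a power of the cyclotomic character of order two -/
theorem quad_power {ω : Character p ⊤} (hω : IsCyclotomic p ω) {e : ℤ}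
    (h1 : ∃ σ, ω σ ^ e ≠ 1) (h2 : ∀ σ, ω σ ^ e = 1 ∨ ω σ ^ e = -1) :
    ((p : ℤ) - 1 ∣ 2 * e) ∧ ¬ ((p : ℤ) - 1 ∣ e) ∧
      ∀ σ, ω σ ^ e = 1 ↔ IsSquare (ω σ) := by
  have hc : ((p : ℤ) - 1) = ((p - 1 : ℕ) : ℤ) := by
    rw [Nat.cast_sub hp.out.one_lt.le, Nat.cast_one]
  obtain ⟨g, hg⟩ := IsCyclic.exists_generator (α := (ZMod p)ˣ)
  have hord : orderOf g = p - 1 := by
    rw [orderOf_eq_card_of_forall_mem_zpowers hg, Nat.card_eq_fintype_card, ZMod.card_units]
  have hsq : ∀ u : (ZMod p)ˣ, u ^ (2 * e) = 1 := by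
    intro u
    obtain ⟨σ, rfl⟩ := cyc_surj hω u
    rw [mul_comm, _root_.zpow_mul]
    rcases h2 σ with h | h
    · rw [h, _root_.one_zpow]
    · rw [h, zpow_ofNat, neg_one_sq]
  have ha : ((p : ℤ) - 1 ∣ 2 * e) := by
    rw [hc, ← hord]
    exact orderOf_dvd_iff_zpow_eq_one.2 (hsq g)
  have hb : ¬ ((p : ℤ) - 1 ∣ e) := by
    rintro ⟨t, ht⟩
    obtain ⟨σ, hσ⟩ := h1
    apply hσ
    rw [ht, hc, _root_.zpow_mul, zpow_natCast, ZMod.units_pow_card_sub_one_eq_one,
      _root_.one_zpow]
  refine ⟨ha, hb, fun σ => ⟨fun h => ?_, fun h => ?_⟩⟩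
  · obtain ⟨k, hk⟩ := Subgroup.mem_zpowers_iff.1 (hg (ω σ))
    rcases Int.even_or_odd k with ⟨m, hm⟩ | ⟨m, hm⟩
    · exact ⟨g ^ m, by rw [← hk, hm, _root_.zpow_add]⟩
    · exfalso
      apply hb
      rw [hc, ← hord]
      refine orderOf_dvd_iff_zpow_eq_one.2 ?_
      have h3 : g ^ (k * e) = 1 := by rw [_root_.zpow_mul, hk, h]
      have h4 : k * e = 2 * e * m + e := by rw [hm]; ring
      rw [h4, _root_.zpow_add, _root_.zpow_mul, hsq g, _root_.one_zpow, one_mul] at h3
      exact h3
  · obtain ⟨t, ht⟩ := h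
    have h3 : (t * t) ^ e = t ^ (2 * e) := by rw [_root_.mul_zpow, two_mul, _root_.zpow_add]
    rw [ht, h3, hsq t]

end field

/-- The conclusion for `ψ` and `X`: let `ρ` be a two-dimensional representation of `B` over a Noetherian
local ring `A` of residue characteristic `p`, continuous, unramified outside `S`, residually triangular
with the characters `ψ 0`, `ψ 1`, irreducible over the algebraically closed field `E` of characteristic
zero. If it is reducible on a subgroup `T` of finite index of `X ∩ B`, then `ψ 0 / ψ 1` has order two and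
`V = E ^ 2` is induced from a character of the kernel of `ψ 0 / ψ 1`. -/
def Conclusion (p : ℕ) (S : Set ℕ) (B C : Subgroup AbsGal) (ψ : Fin 2 → Character p B)
    (X : Subgroup AbsGal) : Prop :=
  ∀ (A : Type) [CommRing A] [IsLocalRing A] [IsNoetherianRing A] [TopologicalSpace A],
    IsAdic (maximalIdeal A) → (p : A) ∈ maximalIdeal A →
    ∀ ρ : B →* GL (Fin 2) A, Admissible S C ψ ρ →
    ∀ (E : Type) [Field E] [Algebra A E] [IsAlgClosed E] [CharZero E], Irreducible E ρ →
    ∀ T, FinIndex T (X ⊓ B) → ReducibleOn E ρ T → Dihedral E (ratio ψ 0 1) ρ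

/-- The conclusion over `ℚ`, for `X`: let `ρ` be a two-dimensional representation of `G_ℚ` over a
Noetherian local ring `A` of residue characteristic `p`, continuous, unramified outside `S`,
residually triangular with the characters `ω ^ i`, `ω ^ j`, irreducible over the algebraically closed
field `E` of characteristic zero. If it is reducible on a subgroup `T` of finite index of `X`, then
`p - 1` divides `2 (i - j)`, but not `i - j`, and `V = E ^ 2` is induced from a character of the absolute
Galois group of the quadratic subfield of `ℚ(ζ_p)`. -/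
def RationalConclusion (p : ℕ) (S : Set ℕ) (ω : Character p ⊤) (i j : ℤ) (X : Subgroup AbsGal) :
    Prop :=
  ∀ (A : Type) [CommRing A] [IsLocalRing A] [IsNoetherianRing A] [TopologicalSpace A],
    IsAdic (maximalIdeal A) → (p : A) ∈ maximalIdeal A →
    ∀ ρ : (⊤ : Subgroup AbsGal) →* GL (Fin 2) A,
    Admissible S (cyclotomic p) ![power ω i, power ω j] ρ →
    ∀ (E : Type) [Field E] [Algebra A E] [IsAlgClosed E] [CharZero E], Irreducible E ρ →
    ∀ T, FinIndex T X → ReducibleOn E ρ T →
      ((p : ℤ) - 1 ∣ 2 * (i - j)) ∧ ¬ ((p : ℤ) - 1 ∣ i - j) ∧ InducedFromQuadratic E ω ρ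

/-- Irreducible two-dimensional representations, residually triangular, which are potentially
reducible on one subgroup `X` which detects the quotients of the residual characters, are induced from
the quadratic extension given by the quotient of the residual characters; for `F = ℚ`, `k = ℚ(ζ_p)`, the
subgroups `X` which contain the inertia group at one prime above `p` detect the characters for which
the eigenspace of the class group is trivial. -/
theorem result :
    (∀ (p : ℕ) [Fact p.Prime], p ≠ 2 → ∀ (S : Set ℕ) (B C : Subgroup AbsGal), Setting p B C →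
      ∀ (ψ : Fin 2 → Character p B) (X : Subgroup AbsGal), Detecting p S B C ψ X →
      Conclusion p S B C ψ X) ∧
    (∀ (p : ℕ) [Fact p.Prime], p ≠ 2 → (∃ ω, IsCyclotomic p ω) ∧
      ∀ ω, IsCyclotomic p ω → ∀ S : Set ℕ, (∀ l ∈ S, l.Prime) →
      ∀ i j : ℤ, GoodExponent p S ω 0 → GoodExponent p S ω (i - j) → GoodExponent p S ω (j - i) →
      ∀ X, AboveInertia p X → RationalConclusion p S ω i j X) := by
  refine ⟨fun p _ hp2 S B C hSet ψ X hX A _ _ _ _ hA hpA ρ hρ E _ _ _ _ hirr T hT hred =>
    dichotomy hp2 hSet A hA hpA ψ ρ hρ E hirr X hX T hT hred,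
    fun p _ hp2 => ⟨exists_cyc Fact.out, ?_⟩⟩
  intro ω hω S hS i j h0 h1 h2 X hX A _ _ _ _ hA hpA ρ hρ E _ _ _ _ hirr T hT hred
  have hdet : Detecting p S ⊤ (cyclotomic p) ![power ω i, power ω j] X := by
    have h3 := (Pool.Agent.Results.MP_f68ac8_nt.EigenspaceIrreducibility.result.2.2 p).2.2 ω hω S 2
      ![i, j] hS (by
        intro a b
        fin_cases a <;> fin_cases b
        · simpa using h0
        · simpa using h1
        · simpa using h2
        · simpa using h0) X hX
    have e : (fun a => power ω (![i, j] a)) = ![power ω i, power ω j] := by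
      funext a
      fin_cases a <;> rfl
    rwa [e] at h3
  have hT' : FinIndex T (X ⊓ ⊤) := by rwa [inf_top_eq]
  have hD := dichotomy hp2 (cyclotomic_setting Fact.out) A hA hpA _ ρ hρ E hirr X hdet T hT' hred
  have hθ : ∀ σ, ratio ![power ω i, power ω j] 0 1 σ = ω σ ^ (i - j) := by
    intro σ
    show ω σ ^ i * (ω σ ^ j)⁻¹ = ω σ ^ (i - j)
    rw [_root_.zpow_sub]
  obtain ⟨ha, hb, hc⟩ := quad_power hω (e := i - j)
    (by
      by_contra h
      push Not at h
      exact hD.nontrivial (MonoidHom.ext fun σ => (hθ σ).trans (h σ)))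
    (fun σ => by
      have h := hD.quadratic σ
      rwa [hθ] at h)
  refine ⟨ha, hb, ?_⟩
  obtain ⟨v, w, hvw, h⟩ := hD.induced
  refine ⟨v, w, hvw, fun σ => ⟨fun hs => (h σ).1 ?_, fun hs => (h σ).2 ?_⟩⟩
  · rw [hθ]
    exact (hc σ).2 hs
  · rw [hθ]
    exact fun h' => hs ((hc σ).1 h')

end Pool.Agent.Results.MP_b583a4_nt.PotentiallyReducibleAtOddPrimes
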