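import Pool.Agent.U239.TQ.P3
import Pool.Agent.Q202.QT.DensN
import Pool.Agent.Q202.QT.Ker
import Pool.Agent.Results.MP_b583a4_nt.OrdinaryScalar

/-!
# Ordinary two-dimensional representations with scalar reduction, three tame primes

Let `p` be an odd prime and let `a`, `b`, `c` be primes congruent to `1` modulo `p` but not modulo
`p ^ 2`. We give an explicit condition on the linking numbers of `p`, `a`, `b`, `c` (seven
inequations in the field of `p` elements) under which every ordinary two-dimensional representation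
of the absolute Galois group of `ℚ` over the ring of integers of any finite extension of `ℚ_p`,
whose reduction is twice a character, and which is unramified outside `p`, `a`, `b`, `c` and primes
not congruent to `1` modulo `p`, is reducible (if `2 e < p - 1`, `e` the ramification index, or if the
inertia groups at `a`, `b`, `c` act unipotently). For every `p ≥ 5` and every prime `a ≡ 1` modulo
`p`, not modulo `p ^ 2`, it is satisfied for positive explicit proportions of the primes `b` and `c`.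

Proof. By `Pool.Agent.Results.MP_b583a4_nt.OrdinaryScalar.result` one has to show that certain
systems of equations for `2 × 2` matrices `C`, `T_a`, `T_b`, `T_c` of trace zero, `T_l ^ 2 = 0`, have
no solution without common eigenvector. If the kernels of two of the `T_l` are equal or one of the
`T_l` is zero, this is a question on pairs of characters. Otherwise there is, up to conjugation,
exactly one solution, in which `C` is a combination of the `T_l`, and `C` and `∑ χ_l(p) T_l` have no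
common eigenvector if a certain quadratic form does not vanish. The proportions come from the joint
equidistribution of linking numbers (Chebotarev, `Pool.Agent.Q202.QT.densN`) and a count.
-/

set_option autoImplicit false

open NumberField Matrix IsLocalRing Finset Filter

namespace Pool.Agent.Results.MP_b583a4_nt.ThreeTamePrimes

open Pool.Agent.Results.MP_b583a4_nt.OrdinaryScalar (UnramifiedOutside ResiduallyScalar Decomposition
  StableLine Tame UnipotentInertia linking NoPair NoTuple Eigen eigen_iff)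
open Pool.Agent.Q202.RT Pool.Agent.Q202.QT
open Pool.Agent.W569.TG (lk)
open Pool.Agent.U239.TQ

/-- All ordinary representations with scalar reduction whose tame ramification at primes congruent
to `1` modulo `p` is in `T` are reducible: for all finite sets `S` of primes `l ≠ p` whose members
congruent to `1` modulo `p` are in `T`, all complete discrete valuation rings `A` with finite residue
field in which `p` has valuation `e ≥ 1`, every continuous `ρ : Gal(ℚbar/ℚ) → GL_2(A)`, unramified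
outside `S` and `p`, residually twice a character, such that `2 e < p - 1` or the inertia groups at
the primes in `S` congruent to `1` modulo `p` act unipotently, and such that the decomposition group
at a prime above `p` preserves a line, preserves a line. -/
def OrdinaryReducible (p : ℕ) (T : Finset ℕ) : Prop :=
  ∀ S : Finset ℕ, (∀ l ∈ S, l.Prime ∧ l ≠ p) → (∀ l ∈ S, p ∣ l - 1 → l ∈ T) →
    ∀ (A : Type) [CommRing A] [IsDomain A] [IsDiscreteValuationRing A]
      [IsAdicComplete (maximalIdeal A) A] [TopologicalSpace A],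
      IsAdic (maximalIdeal A) → Finite (ResidueField A) →
    ∀ e : ℕ, 1 ≤ e → (p : A) ∈ maximalIdeal A ^ e → (p : A) ∉ maximalIdeal A ^ (e + 1) →
    ∀ ρ : Gal(AlgebraicClosure ℚ/ℚ) →* GL (Fin 2) A, Continuous ρ → UnramifiedOutside p S ρ →
      ResiduallyScalar ρ → (2 * e < p - 1 ∨ UnipotentInertia p S ρ) →
      ∀ P : Ideal (𝓞 (AlgebraicClosure ℚ)), P.IsMaximal → (p : 𝓞 (AlgebraicClosure ℚ)) ∈ P →
        StableLine ρ (Decomposition P) → StableLine ρ Set.univ

/-- The normalised linking number `μ(i, j) = χ_j(i) / u_i`, `u_i = (i - 1) / p`, of two primes. -/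
noncomputable def mu {p : ℕ} [Fact p.Prime] (χ : ∀ j : ℕ, (ZMod j)ˣ →* Multiplicative (ZMod p))
    (i j : ℕ) : ZMod p :=
  linking (ZMod p) j i (χ j) / (((i - 1) / p : ℕ) : ZMod p)

/-- The number `w(a; b, c) = (μ(b, a) - μ(c, a)) ((μ(a, b) + μ(c, b)) χ_c(p) - (μ(a, c) + μ(b, c)) χ_b(p))`. -/
noncomputable def wt {p : ℕ} [Fact p.Prime] (χ : ∀ j : ℕ, (ZMod j)ˣ →* Multiplicative (ZMod p))
    (a b c : ℕ) : ZMod p :=
  (mu χ b a - mu χ c a) * ((mu χ a b + mu χ c b) * linking (ZMod p) c p (χ c) -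
    (mu χ a c + mu χ b c) * linking (ZMod p) b p (χ b))

/-- The condition on three primes: (1) `μ(b, a) ≠ μ(c, a)`, `μ(a, b) ≠ μ(c, b)`, `μ(a, c) ≠ μ(b, c)`;
(2) `μ(j, i) χ_j(p) ≠ μ(i, j) χ_i(p)` for any two of the primes; (3) the discriminant
`x² + y² + z² - 2 (x y + y z + z x)` of `x = w(a; b, c)`, `y = w(b; c, a)`, `z = w(c; a, b)` is not
zero. -/
def Condition {p : ℕ} [Fact p.Prime] (χ : ∀ j : ℕ, (ZMod j)ˣ →* Multiplicative (ZMod p))
    (a b c : ℕ) : Prop :=
  (mu χ b a ≠ mu χ c a ∧ mu χ a b ≠ mu χ c b ∧ mu χ a c ≠ mu χ b c) ∧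
  (mu χ b a * linking (ZMod p) b p (χ b) ≠ mu χ a b * linking (ZMod p) a p (χ a) ∧
    mu χ c a * linking (ZMod p) c p (χ c) ≠ mu χ a c * linking (ZMod p) a p (χ a) ∧
    mu χ c b * linking (ZMod p) c p (χ c) ≠ mu χ b c * linking (ZMod p) b p (χ b)) ∧
  wt χ a b c ^ 2 + wt χ b c a ^ 2 + wt χ c a b ^ 2 ≠
    2 * (wt χ a b c * wt χ b c a + wt χ b c a * wt χ c a b + wt χ c a b * wt χ a b c)

open Classical in
/-- The primes `q ≤ x` with `p ∣ q - 1`. -/
noncomputable def Pr (p x : ℕ) : Finset ℕ := (range (x + 1)).filter fun q => q.Prime ∧ p ∣ q - 1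

open Classical in
/-- `ForShare p δ R T`: the primes `q ≡ 1 mod p`, `q ∉ T`, such that `T ∪ {q}` has the property `R`
are at least the proportion `δ` of the primes `q ≡ 1 mod p` (lower density). -/
def ForShare (p : ℕ) (δ : ℝ) (R : Finset ℕ → Prop) (T : Finset ℕ) : Prop :=
  ∀ ε : ℝ, 0 < ε → ∀ᶠ x : ℕ in atTop, (δ - ε) * ((Pr p x).card : ℝ) ≤
    (((Pr p x).filter fun q => q ∉ T ∧ R (insert q T)).card : ℝ)

theorem Pr_eq (p x : ℕ) [Fact p.Prime] : Pr p x = P1 p x := by
  ext l
  rw [mem_P1, Pr, mem_filter, mem_range]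
  constructor
  · rintro ⟨h1, h2, h3⟩
    exact ⟨by omega, h2, h3⟩
  · rintro ⟨h1, h2, h3⟩
    exact ⟨by omega, h2, h3⟩

section
variable {p : ℕ} [hpF : Fact p.Prime]

theorem linking_lk {K : Type} [Field K] [CharP K p]
    (χ : ∀ j : ℕ, (ZMod j)ˣ →* Multiplicative (ZMod p)) (j q : ℕ) :
    linking K j q (χ j) = ZMod.castHom (dvd_refl p) K (lk χ q j) := by
  have : NeZero p := ⟨hpF.out.ne_zero⟩
  unfold linking lk
  split_ifs with h
  · rw [ZMod.castHom_apply, ZMod.natCast_val]
  · rw [map_zero]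

theorem linking_lk' (χ : ∀ j : ℕ, (ZMod j)ˣ →* Multiplicative (ZMod p)) (j q : ℕ) :
    linking (ZMod p) j q (χ j) = lk χ q j := by
  rw [linking_lk χ j q, ZMod.castHom_apply, ZMod.cast_id]

theorem notuple {K : Type} [Field K] {S : Finset ℕ}
    {χ : ∀ j : ℕ, (ZMod j)ˣ →* Multiplicative (ZMod p)} {ε : K}
    (N : Pool.Agent.TH831.OE.NTo (Tame p S) (fun l => (((l - 1) / p : ℕ) : K))
      (fun l j => linking K j l (χ j)) (fun j => linking K j p (χ j)) ε) : NoTuple K p S χ ε := by
  intro C T hC hT hrel ⟨v, hv0, hv1, hv2⟩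
  obtain ⟨w, hw0, hw1, hw2⟩ := N C T hC hT hrel ⟨v, hv0, (eigen_iff hv0).1 hv1, (eigen_iff hv0).1 hv2⟩
  exact ⟨w, hw0, (eigen_iff hw0).2 hw1, fun l hl => ⟨0, by rw [hw2 l hl, zero_smul]⟩⟩

theorem lv_ne {l : ℕ} (hpl : p ∣ l - 1) (h : ¬ p ^ 2 ∣ l - 1) : lv p l ≠ 0 := by
  intro h1
  unfold lv at h1
  rw [ZMod.natCast_eq_zero_iff] at h1
  obtain ⟨m, hm⟩ := h1
  apply h
  refine ⟨m, ?_⟩
  rw [pow_two, mul_assoc, ← hm, Nat.mul_div_cancel' hpl]

theorem lv_dvd {l : ℕ} (h : lv p l ≠ 0) : ¬ p ^ 2 ∣ l - 1 := by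
  rintro ⟨m, hm⟩
  apply h
  unfold lv
  rw [ZMod.natCast_eq_zero_iff]
  refine ⟨m, ?_⟩
  rw [hm, pow_two, mul_assoc, Nat.mul_div_cancel_left _ hpF.out.pos]

/-- the criterion, in terms of `Good3` -/
theorem crit (hp2 : p ≠ 2) (χ : ∀ j : ℕ, (ZMod j)ˣ →* Multiplicative (ZMod p)) (l : Fin 3 → ℕ)
    (hli : Function.Injective l) (hl : ∀ i, ¬ p ^ 2 ∣ l i - 1) (hχ : ∀ i, ∃ x, χ (l i) x ≠ 1)
    (hu : ∀ i, lv p (l i) ≠ 0)
    (hG : Good3 (fun i j => lk χ (l i) (l j) / lv p (l i)) (fun j => lk χ p (l j))) :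
    OrdinaryReducible p (univ.image l) := by
  have hp : p.Prime := Fact.out
  intro S hS hT A _ _ _ _ _ hA hfin e he h0 h0' ρ hρ hur hres hU P hP hpP hloc
  have hpm : (p : A) ∈ maximalIdeal A := Ideal.pow_le_self (by omega) h0
  have hchar : CharP (ResidueField A) p := Pool.Agent.TH831.OE.charP_res hp hpm
  have hpκ := Pool.Agent.TH831.OE.natCast_zero_iff hp hpm
  have two : (2 : ResidueField A) ≠ 0 := Pool.Agent.TH831.OE.two_ne_of hp2 hpκ
  have hmem : ∀ a ∈ S, p ∣ a - 1 → ∃ i, l i = a := by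
    intro a ha hpa
    obtain ⟨i, -, hi⟩ := mem_image.1 (hT a ha hpa)
    exact ⟨i, hi⟩
  have hS' : ∀ a ∈ S, a.Prime ∧ a ≠ p ∧ ¬ p ^ 2 ∣ a - 1 := by
    intro a ha
    refine ⟨(hS a ha).1, (hS a ha).2, fun h => ?_⟩
    obtain ⟨i, rfl⟩ := hmem a ha ((dvd_pow_self p two_ne_zero).trans h)
    exact hl i h
  set φ := ZMod.castHom (dvd_refl p) (ResidueField A) with hφ
  have hinj : Function.Injective φ := φ.injective
  have eu : (fun l : ℕ => (((l - 1) / p : ℕ) : ResidueField A)) = fun l => φ (lv p l) := by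
    funext a
    unfold lv
    rw [map_natCast]
  have el : (fun l j : ℕ => linking (ResidueField A) j l (χ j)) = fun l j => φ (lk χ l j) := by
    funext a j
    exact linking_lk χ j a
  have eb : (fun j : ℕ => linking (ResidueField A) j p (χ j)) = fun j => φ (lk χ p j) := by
    funext j
    exact linking_lk χ j p
  have hsub : Tame p S ⊆ univ.image l := by
    intro a ha
    exact hT a (mem_filter.1 ha).1 (mem_filter.1 ha).2
  have hG' : Good3 (fun i j => φ (lk χ (l i) (l j)) / φ (lv p (l i))) (fun j => φ (lk χ p (l j))) := by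
    obtain ⟨g1, g2, g3⟩ := hG
    refine ⟨fun i j k hij hjk hik h => g1 i j k hij hjk hik (hinj ?_),
      fun i j hij h => g2 i j hij (hinj ?_), fun h => g3 (hinj ?_)⟩
    · rw [map_div₀, map_div₀]
      exact h
    · rw [map_mul, map_mul, map_div₀, map_div₀]
      exact h
    · rw [map_zero, ← h]
      unfold disc wq
      simp only [map_sub, map_add, map_mul, map_pow, map_div₀, map_ofNat]
  obtain ⟨r1, r2, r3⟩ := good3_all (K := ResidueField A) two (u := fun i => φ (lv p (l i)))
    (L := fun i j => φ (lk χ (l i) (l j))) (b := fun j => φ (lk χ p (l j)))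
    (fun i h => hu i (hinj (by rw [map_zero]; exact h))) hG'
  have hN1 : NoTuple (ResidueField A) p S χ 1 := by
    apply notuple
    rw [eu, el, eb]
    exact nto_mono hsub (nto_of_nti hli (u := fun l => φ (lv p l)) (L := fun l j => φ (lk χ l j))
      (b := fun j => φ (lk χ p j)) r3)
  have hN0 : NoTuple (ResidueField A) p S χ 0 := by
    apply notuple
    rw [eu, el, eb]
    exact nto_mono hsub (nto_of_nti hli (u := fun l => φ (lv p l)) (L := fun l j => φ (lk χ l j))
      (b := fun j => φ (lk χ p j)) r2)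
  have hP' : NoPair (ResidueField A) p S χ := by
    have h : NP (Tame p S) (fun l => (((l - 1) / p : ℕ) : ResidueField A))
        (fun l j => linking (ResidueField A) j l (χ j)) (fun j => linking (ResidueField A) j p (χ j)) := by
      rw [eu, el, eb]
      exact np_mono hsub (np_of_npi hli (u := fun l => φ (lv p l)) (L := fun l j => φ (lk χ l j))
        (b := fun j => φ (lk χ p j)) r1)
    exact h
  exact OrdinaryScalar.result p hp2 S hS' A hA hfin e he h0 h0' χ
    (fun a ha => by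
      obtain ⟨i, rfl⟩ := hmem a (mem_filter.1 ha).1 (mem_filter.1 ha).2
      exact hχ i)
    (Or.inr ⟨hP', hN1, Or.inr hN0⟩) ρ hρ hur hres hU P hP hpP hloc

theorem image3 (a b c : ℕ) : univ.image ![a, b, c] = ({a, b, c} : Finset ℕ) := by
  ext x
  simp only [mem_image, mem_univ, true_and, mem_insert, mem_singleton]
  constructor
  · rintro ⟨i, rfl⟩
    fin_cases i <;> simp
  · rintro (rfl | rfl | rfl)
    exacts [⟨0, rfl⟩, ⟨1, rfl⟩, ⟨2, rfl⟩]

theorem inj3 {a b c : ℕ} (hab : a ≠ b) (hac : a ≠ c) (hbc : b ≠ c) :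
    Function.Injective ![a, b, c] := by
  intro i j h
  fin_cases i <;> fin_cases j
  exacts [rfl, absurd h hab, absurd h hac, absurd h.symm hab, rfl, absurd h hbc, absurd h.symm hac,
    absurd h.symm hbc, rfl]

theorem insert3 (a b q : ℕ) : insert q (insert b ({a} : Finset ℕ)) = {a, b, q} := by
  ext x
  simp only [mem_insert, mem_singleton]
  tauto

/-- the third prime -/
theorem third (hp2 : p ≠ 2) (χ : ∀ j : ℕ, (ZMod j)ˣ →* Multiplicative (ZMod p)) (hχ : Kr χ)
    {a b : ℕ} (ha : a.Prime) (hb : b.Prime) (hpa : p ∣ a - 1) (hpb : p ∣ b - 1) (hab : a ≠ b)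
    (hua : lv p a ≠ 0) (hub : lv p b ≠ 0) {δ : ℝ} (hδ1 : δ ≤ 1) {X : ℕ}
    (hX : δ * ((p : ℝ) ^ 3 * (p : ℝ) ^ 3) ≤ (X : ℝ))
    (hcount : open Classical in X ≤ ∑ w : Fin 3 → ZMod p,
      ((univ : Finset (Fin 3 → ZMod p)).filter fun s => GT (lk χ a b / lv p a)
        (lk χ b a / lv p b) (lv p a) (lv p b) (lk χ p a) (lk χ p b) w s).card) :
    ForShare p δ (fun T => (∀ q ∈ T, ¬ p ^ 2 ∣ q - 1) ∧ OrdinaryReducible p T) (insert b {a}) := by
  classical
  have hp : p.Prime := hpF.out
  have hp0 : (0 : ℝ) < p := by exact_mod_cast hp.pos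
  intro ε hε
  obtain ⟨Good, hGood⟩ : ∃ G : (Fin (2 + 1) → ZMod p) → (Fin (2 + 1) → ZMod p) → Prop,
      G = fun w s => GT (lk χ a b / lv p a) (lk χ b a / lv p b) (lv p a) (lv p b) (lk χ p a)
        (lk χ p b) w s := ⟨_, rfl⟩
  have hli : Function.Injective ![a, b] := by
    intro i j h
    fin_cases i <;> fin_cases j
    · rfl
    · exact absurd h hab
    · exact absurd h.symm hab
    · rfl
  have hd := densN hp2 χ hχ ![a, b] (by
      intro i
      fin_cases i
      exacts [ha, hb]) (by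
      intro i
      fin_cases i
      exacts [hpa, hpb]) hli Good
    (fun w s h => by rw [hGood] at h; exact GT_ne h)
    (fun w s c hc h => by rw [hGood] at h ⊢; exact GT_scale c hc h) δ hδ1 (by
      have hpos : (0 : ℝ) < (p : ℝ) ^ (2 + 1) * ((p ^ (2 + 1) : ℕ) : ℝ) := by
        push_cast
        positivity
      rw [Fintype.card_fin, Fintype.card_fun, ZMod.card, Fintype.card_fin, le_div_iff₀ hpos]
      have h2 : (X : ℝ) ≤ ((∑ w : Fin 3 → ZMod p, ((univ : Finset (Fin 3 → ZMod p)).filter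
        fun s => GT (lk χ a b / lv p a) (lk χ b a / lv p b) (lv p a) (lv p b) (lk χ p a)
        (lk χ p b) w s).card : ℕ) : ℝ) := Nat.cast_le.2 hcount
      refine le_trans ?_ (h2.trans (le_of_eq ?_))
      · refine le_trans (le_of_eq ?_) hX
        push_cast
        ring
      · rw [hGood]) ε hε
  filter_upwards [hd] with x hx
  rw [Pr_eq]
  refine le_trans hx (Nat.cast_le.2 (card_le_card fun q hq => ?_))
  obtain ⟨h1, h2, h3⟩ := (@Finset.mem_filter _ _ _ _ _).1 hq
  rw [hGood] at h3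
  obtain ⟨-, hqp, hpq⟩ := mem_P1.1 h1
  have hqa : q ≠ a := h2 0
  have hqb : q ≠ b := h2 1
  have huq : lv p q ≠ 0 := h3.1
  simp only [Finset.mem_filter]
  refine ⟨h1, ?_, ?_, ?_⟩
  · rw [mem_insert, mem_singleton, not_or]
    exact ⟨hqb, hqa⟩
  · intro r hr
    rw [mem_insert, mem_insert, mem_singleton] at hr
    rcases hr with rfl | rfl | rfl
    exacts [lv_dvd huq, lv_dvd hub, lv_dvd hua]
  · rw [insert3, ← image3]
    refine crit hp2 χ ![a, b, q] (inj3 hab hqa.symm hqb.symm) ?_ ?_ ?_ (good3_iff.2 h3.2)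
    · intro i
      fin_cases i
      exacts [lv_dvd hua, lv_dvd hub, lv_dvd huq]
    · intro i
      fin_cases i
      exacts [(hχ a ha hpa).1, (hχ b hb hpb).1, (hχ q hqp hpq).1]
    · intro i
      fin_cases i
      exacts [hua, hub, huq]

/-- the second prime -/
theorem second (hp2 : p ≠ 2) (χ : ∀ j : ℕ, (ZMod j)ˣ →* Multiplicative (ZMod p)) (hχ : Kr χ)
    {a : ℕ} (ha : a.Prime) (hpa : p ∣ a - 1) {R : Finset ℕ → Prop}
    (h : ∀ q : ℕ, q.Prime → p ∣ q - 1 → a ≠ q → lv p q ≠ 0 →
      lk χ q a / lv p q * lk χ p q ≠ lk χ a q / lv p a * lk χ p a → R (insert q {a})) :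
    ForShare p ((1 - 1 / (p : ℝ)) ^ 3) R {a} := by
  classical
  have hp : p.Prime := hpF.out
  have hp0 : (0 : ℝ) < p := by exact_mod_cast hp.pos
  have hp1 : (1 : ℝ) ≤ p := by exact_mod_cast hp.one_le
  intro ε hε
  obtain ⟨Good, hGood⟩ : ∃ G : (Fin (1 + 1) → ZMod p) → (Fin (1 + 1) → ZMod p) → Prop,
      G = fun w s => GS (lv p a) (lk χ p a) w s := ⟨_, rfl⟩
  have hd := densN hp2 χ hχ (fun _ : Fin 1 => a) (fun _ => ha) (fun _ => hpa)
    (fun i j _ => Subsingleton.elim i j) Good
    (fun w s h0 => by rw [hGood] at h0; exact GS_ne h0)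
    (fun w s c hc h0 => by rw [hGood] at h0 ⊢; exact GS_scale c hc h0) ((1 - 1 / (p : ℝ)) ^ 3) (by
      have h1 : (0 : ℝ) < 1 / p := by positivity
      have h2 : 1 / (p : ℝ) ≤ 1 := by rw [div_le_one hp0]; exact hp1
      exact pow_le_one₀ (by linarith) (by linarith)) (by
      have e := count_second (p := p) (u0 := lv p a) (b0 := lk χ p a)
      have hppos : (0 : ℝ) < (p : ℝ) ^ (1 + 1) * ((p ^ (1 + 1) : ℕ) : ℝ) := by
        push_cast
        positivity
      rw [Fintype.card_fin, Fintype.card_fun, ZMod.card, Fintype.card_fin, le_div_iff₀ hppos]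
      have e' : (((p - 1) * (p - 1) * (p * (p - 1)) : ℕ) : ℝ) ≤
          ((∑ w : Fin 2 → ZMod p, ((univ : Finset (Fin 2 → ZMod p)).filter
            fun s => GS (lv p a) (lk χ p a) w s).card : ℕ) : ℝ) := Nat.cast_le.2 e
      refine le_trans (le_of_eq ?_) (e'.trans (le_of_eq (by rw [hGood])))
      push_cast [Nat.cast_sub hp.one_le]
      field_simp) ε hε
  filter_upwards [hd] with x hx
  rw [Pr_eq]
  refine le_trans hx (Nat.cast_le.2 (card_le_card fun q hq => ?_))
  obtain ⟨h1, h2, h3⟩ := (@Finset.mem_filter _ _ _ _ _).1 hq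
  rw [hGood] at h3
  obtain ⟨-, hqp, hpq⟩ := mem_P1.1 h1
  have haq : a ≠ q := fun h => h2 0 h.symm
  simp only [Finset.mem_filter]
  refine ⟨h1, ?_, h q hqp hpq haq h3.1 h3.2⟩
  rw [mem_singleton]
  exact fun h => haq h.symm

end

/-- **Ordinary representations with scalar reduction, three tame primes.** Let `p` be an odd prime.
(1) Let `a`, `b`, `c` be distinct primes congruent to `1` modulo `p` but not modulo `p ^ 2`, which
satisfy `Condition`. Then all ordinary two-dimensional representations with scalar reduction whose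
tame ramification at primes congruent to `1` modulo `p` is at `a`, `b`, `c` are reducible.
(2) Let `p ≥ 5`. For every prime `a ≡ 1 mod p`, not modulo `p ^ 2`, for at least the proportion
`(1 - 1/p)³` of the primes `b ≡ 1 mod p`, for at least the proportion
`(1 - 1/p)² (1 - 2/p) (1 - 3/p) (1 - 4/p)` of the primes `c ≡ 1 mod p`, none of the three primes is
congruent to `1` modulo `p ^ 2`, and the conclusion of (1) holds.
(3) The same holds for `p = 3` with the proportions `8/27` and `8/243`. -/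
theorem result (p : ℕ) [Fact p.Prime] (hp2 : p ≠ 2) :
    (∀ (χ : ∀ j : ℕ, (ZMod j)ˣ →* Multiplicative (ZMod p)) (a b c : ℕ),
      (∀ l ∈ ({a, b, c} : Finset ℕ), l.Prime ∧ p ∣ l - 1 ∧ ¬ p ^ 2 ∣ l - 1 ∧ ∃ x, χ l x ≠ 1) →
      a ≠ b → a ≠ c → b ≠ c → Condition χ a b c → OrdinaryReducible p {a, b, c}) ∧
    (5 ≤ p → ∀ a : ℕ, a.Prime → p ∣ a - 1 → ¬ p ^ 2 ∣ a - 1 →
      ForShare p ((1 - 1 / (p : ℝ)) ^ 3)
        (ForShare p ((1 - 1 / (p : ℝ)) ^ 2 * (1 - 2 / (p : ℝ)) * (1 - 3 / (p : ℝ)) *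
          (1 - 4 / (p : ℝ)))
          (fun T => (∀ q ∈ T, ¬ p ^ 2 ∣ q - 1) ∧ OrdinaryReducible p T)) {a}) ∧
    (p = 3 → ∀ a : ℕ, a.Prime → p ∣ a - 1 → ¬ p ^ 2 ∣ a - 1 →
      ForShare p (8 / 27) (ForShare p (8 / 243)
        (fun T => (∀ q ∈ T, ¬ p ^ 2 ∣ q - 1) ∧ OrdinaryReducible p T)) {a}) := by
  have hp : p.Prime := Fact.out
  obtain ⟨χ₀, hχ₀, -⟩ := extend (p := p) (fun _ => 1) ∅ (fun j hj => absurd hj (Set.notMem_empty j))
  refine ⟨?_, ?_, ?_⟩
  · intro χ a b c h hab hac hbc hC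
    have ha := h a (by simp)
    have hb := h b (by simp)
    have hc := h c (by simp)
    rw [← image3]
    refine crit hp2 χ ![a, b, c] (inj3 hab hac hbc) ?_ ?_ ?_ (good3_iff.2 ?_)
    · intro i
      fin_cases i
      exacts [ha.2.2.1, hb.2.2.1, hc.2.2.1]
    · intro i
      fin_cases i
      exacts [ha.2.2.2, hb.2.2.2, hc.2.2.2]
    · intro i
      fin_cases i
      exacts [lv_ne ha.2.1 ha.2.2.1, lv_ne hb.2.1 hb.2.2.1, lv_ne hc.2.1 hc.2.2.1]
    · obtain ⟨⟨c1, c2, c3⟩, ⟨c4, c5, c6⟩, c7⟩ := hC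
      unfold wt at c7
      unfold mu at c1 c2 c3 c4 c5 c6 c7
      simp only [linking_lk'] at c1 c2 c3 c4 c5 c6 c7
      refine ⟨c1, c2, c3, c4, c5, c6, fun h => c7 ?_⟩
      have h' : disc ((lk χ b a / lv p b - lk χ c a / lv p c) *
          ((lk χ a b / lv p a + lk χ c b / lv p c) * lk χ p c -
            (lk χ a c / lv p a + lk χ b c / lv p b) * lk χ p b))
        ((lk χ c b / lv p c - lk χ a b / lv p a) *
          ((lk χ b c / lv p b + lk χ a c / lv p a) * lk χ p a -
            (lk χ b a / lv p b + lk χ c a / lv p c) * lk χ p c))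
        ((lk χ a c / lv p a - lk χ b c / lv p b) *
          ((lk χ c a / lv p c + lk χ b a / lv p b) * lk χ p b -
            (lk χ c b / lv p c + lk χ a b / lv p a) * lk χ p a)) = 0 := h
      unfold disc at h'
      simp only [lv] at h'
      linear_combination h'
  · intro hp5 a ha hpa hpa2
    have hua := lv_ne hpa hpa2
    have two : (2 : ZMod p) ≠ 0 := by
      intro h
      have h1 : ((2 : ℕ) : ZMod p) = 0 := by exact_mod_cast h
      rw [ZMod.natCast_eq_zero_iff] at h1
      exact hp2 ((Nat.prime_dvd_prime_iff_eq hp Nat.prime_two).1 h1)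
    have hp0 : (0 : ℝ) < p := by exact_mod_cast hp.pos
    have hp5' : (5 : ℝ) ≤ p := by exact_mod_cast hp5
    have k : ∀ r : ℝ, 0 ≤ r → r ≤ 4 → 0 ≤ 1 - r / (p : ℝ) ∧ 1 - r / (p : ℝ) ≤ 1 := by
      intro r h0 h1
      have h2 : 0 ≤ r / (p : ℝ) := by positivity
      exact ⟨by rw [sub_nonneg, div_le_one hp0]; linarith, by linarith⟩
    have k1 := k 1 (by norm_num) (by norm_num)
    have k2 := k 2 (by norm_num) (by norm_num)
    have k3 := k 3 (by norm_num) (by norm_num)
    have k4 := k 4 (by norm_num) (by norm_num)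
    refine second hp2 χ₀ hχ₀ ha hpa fun b hb hpb hab hub hD =>
      third hp2 χ₀ hχ₀ ha hb hpa hpb hab hua hub
        (mul_le_one₀ (mul_le_one₀ (mul_le_one₀ (pow_le_one₀ k1.1 k1.2) k2.1 k2.2) k3.1 k3.2)
          k4.1 k4.2) ?_ (count_third two hub hD)
    push_cast [Nat.cast_sub (show 1 ≤ p by omega), Nat.cast_sub (show 2 ≤ p by omega),
      Nat.cast_sub (show 3 ≤ p by omega), Nat.cast_sub (show 4 ≤ p by omega)]
    apply le_of_eq
    field_simp
  · rintro rfl a ha hpa hpa2
    have hua := lv_ne hpa hpa2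
    have e : (8 / 27 : ℝ) = (1 - 1 / ((3 : ℕ) : ℝ)) ^ 3 := by norm_num
    rw [e]
    exact second hp2 χ₀ hχ₀ ha hpa fun b hb hpb hab hub hD =>
      third hp2 χ₀ hχ₀ ha hb hpa hpb hab hua hub (by norm_num) (by norm_num)
        (count_third3 hua hub hD)

end Pool.Agent.Results.MP_b583a4_nt.ThreeTamePrimes
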